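import Pool.Agent.Y123.GN.D7
import Pool.Agent.Y123.GN.B4
import Pool.Agent.Y123.ST.Out

/-!
# Subtorsors and the period matrices of almost all fibres of families of mixed motives

Let `h_i`, `1 ≤ i ≤ k`, be families of G-functions over `ℚ` (with the conditions of Siegel and Galochkin, regular singular
with rational exponents at `0`) and let `P_i(x)` be square matrices whose entries are polynomials with arbitrary complex
coefficients in `log x` and in the functions `h_{i,l}(x)`: the period matrices (rows: Betti, columns: de Rham) of families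
`M_{i,x}` of mixed motives, with arbitrary weight filtrations. Let `Gal(P_i)` be the group of the matrices `g` such that
`P_i` and `g P_i` satisfy the same polynomial relations over `ℂ(x)` (the differential Galois group), let `M_0` be an
arbitrary Nori motive with period matrix `C₀`, let `K` be a number field of degree at most `D`, and let
`c = C₀ ⊕ ⨁_i P_i(1/t_i)` be the period matrix of `M_0` and of the fibres at `x_i = 1/t_i`.

A `K`-subtorsor is a subset `T` of `GL` which is defined by polynomials over `K`, of any degree, and closed under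
`x y⁻¹ z`. The torsor of motivic isomorphisms contains `c`, and Grothendieck's conjecture implies that it is contained in all
others with `c ∈ T`, up to connected components.

**Theorem.** For almost all tuples of integers `t` the following holds.

1. All `K`-subtorsors `T` with `c ∈ T` are stable under `1 × ∏_i known_i`, where `known_i` is generated by the commutators of
the group generated by the unipotent one-parameter groups in `Gal(P_i)` and by the elements `g ∈ Gal(P_i)` for which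
`g - 1` has nonzero entries only in graded pieces `Hom(Gr_b, Gr_a)`, `a < b`, such that the periods of all `Gr_{a'}` and
`Gr_{b'}` with `a' ≤ a < b ≤ b'` are constant, equal to numbers `ω_{a'}`, `ω_{b'}` up to factors in `K`, with
`ω_{a'} / ω_{b'}` transcendental.
2. If `M_{i,x}` is a family of mixed Tate motives, that is, `P_i` is triangular with the entries `(2 π i)^j κ`, `κ ∈ K`, in the
graded pieces of weight `j`, then `T` is stable under all of `Gal(P_i)`.
3. All de Rham-Betti classes in the tensor spaces of `M_0 ⊕ ⨁ M_i` are invariant under these groups.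
4. The Lie algebra of the group `T T⁻¹` is normalised by `1 × ∏_i Gal(P_i)`.
-/

set_option autoImplicit false

open PowerSeries Filter
open scoped commutatorElement Matrix

namespace Pool.Agent.Results.MP_5d33ca_ag.MixedFamilySubtorsors

/-- an integer polynomial as a power series with rational coefficients -/
noncomputable def toQ (P : Polynomial ℤ) : PowerSeries ℚ := ((P.map (Int.castRingHom ℚ) : Polynomial ℚ) : PowerSeries ℚ)

/-- the power series `P(u^e)` -/
noncomputable def atPow (e : ℕ) (P : Polynomial ℤ) : PowerSeries ℂ :=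
  ((Polynomial.expand ℂ e (P.map (Int.castRingHom ℂ)) : Polynomial ℂ) : PowerSeries ℂ)

/-- the matrices `G_s` over `ℤ[x]` with `T^s y^(s) = G_s y` for all solutions `y` of `T y' = A y` -/
noncomputable def iter {r : ℕ} (T : Polynomial ℤ) (A : Fin r → Fin r → Polynomial ℤ) : ℕ → Fin r → Fin r → Polynomial ℤ
  | 0 => fun i j => if i = j then 1 else 0
  | s + 1 => fun i j => T * Polynomial.derivative (iter T A s i j) + ∑ l, iter T A s i l * A l j -
      (s : Polynomial ℤ) * (Polynomial.derivative T * iter T A s i j)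

/-- The system `T y' = A y` has a fundamental matrix of solutions of the form `u^(-M) ∑_n Φ_n(u) (log u)^n` with
`u^e = x` and convergent power series `Φ_n`: the point `0` is regular or a regular singularity with rational
exponents. -/
def QuasiUnipotent {r : ℕ} (T : Polynomial ℤ) (A : Fin r → Fin r → Polynomial ℤ) : Prop :=
  ∃ (e M : ℕ) (K : ℝ) (Φ : Matrix (Fin r) (Fin r) (Polynomial (PowerSeries ℂ))), 1 ≤ e ∧ Φ.det ≠ 0 ∧
    (∀ i j n m, ‖coeff m ((Φ i j).coeff n)‖ ≤ K ^ (m + 1)) ∧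
    ∀ i j n, atPow e T * (X * PowerSeries.derivative ℂ ((Φ i j).coeff n) +
        ((n : PowerSeries ℂ) + 1) * (Φ i j).coeff (n + 1) - (M : PowerSeries ℂ) * (Φ i j).coeff n) =
      (e : PowerSeries ℂ) * X ^ e * ∑ l, atPow e (A i l) * (Φ l j).coeff n

/-- `h_1, ..., h_r` are G-functions with rational coefficients which solve the differential system `T y' = A y`, with
the conditions of Siegel and Galochkin, and `0` is a regular point or a regular singularity with rational exponents of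
the system. -/
structure GFamily {r : ℕ} (T : Polynomial ℤ) (A : Fin r → Fin r → Polynomial ℤ) (h : Fin r → PowerSeries ℚ) : Prop where
  /-- the denominator is not zero -/
  T_ne : T ≠ 0
  /-- the differential equations -/
  ode : ∀ i, toQ T * PowerSeries.derivative ℚ (h i) = ∑ j, toQ (A i j) * h j
  /-- the coefficients have geometric growth -/
  size : ∃ C : ℝ, ∀ i m, |((coeff m (h i) : ℚ) : ℝ)| ≤ C ^ (m + 1)
  /-- the common denominators of the coefficients have geometric growth -/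
  den : ∃ C : ℝ, ∀ m : ℕ, ∃ d : ℕ, 0 < d ∧ (d : ℝ) ≤ C ^ (m + 1) ∧ ∀ i, ∀ j ≤ m, ∃ a : ℤ, (d : ℚ) * coeff j (h i) = a
  /-- Galochkin's condition: the common denominators of the matrices `G_s / s!` have geometric growth -/
  galochkin : ∃ C : ℝ, ∀ m : ℕ, ∃ d : ℕ, 0 < d ∧ (d : ℝ) ≤ C ^ (m + 1) ∧ ∀ s ≤ m, ∀ i j,
    ∃ H : Polynomial ℤ, (d : Polynomial ℤ) * iter T A s i j = (s.factorial : Polynomial ℤ) * H
  /-- the local exponents at `0` are rational and the singularity is regular -/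
  regular : QuasiUnipotent T A

theorem iter_eq {r : ℕ} (T : Polynomial ℤ) (A : Fin r → Fin r → Polynomial ℤ) (s : ℕ) :
    iter T A s = Pool.Agent.Y120.GH.itm T A s := by
  induction s with
  | zero => rfl
  | succ s ih =>
    funext i j
    rw [iter, Pool.Agent.Y120.GH.itm, ih]

theorem qu_eq {r : ℕ} {T : Polynomial ℤ} {A : Fin r → Fin r → Polynomial ℤ} (h : QuasiUnipotent T A) :
    Pool.Agent.Y120.GH.QU0 T A := by
  obtain ⟨e, M, K, Φ, he, hdet, hc, heq⟩ := h
  have he0 : e ≠ 0 := by omega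
  refine ⟨e, he0, M, K, Φ, hc, fun i j n => ?_, hdet⟩
  have h1 := heq i j n
  simp only [atPow] at h1
  rw [Pool.Agent.Y120.GH.expand_poly he0]
  simp only [Pool.Agent.Y120.GH.expand_poly he0]
  exact h1

theorem fam {r : ℕ} {T : Polynomial ℤ} {A : Fin r → Fin r → Polynomial ℤ} {h : Fin r → PowerSeries ℚ}
    (hG : GFamily T A h) (δ : ℕ) : Pool.Agent.Y120.R.Fam δ h :=
  ⟨hG.size, Pool.Agent.Y120.GH.family_main hG.T_ne hG.ode hG.size hG.den (by
    obtain ⟨C, hC⟩ := hG.galochkin
    refine ⟨C, fun m => ?_⟩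
    obtain ⟨d, h1, h2, h3⟩ := hC m
    refine ⟨d, h1, h2, fun s hs i' j' => ?_⟩
    rw [← iter_eq]
    exact h3 s hs i' j') (qu_eq hG.regular) δ⟩

section family
variable {r n : ℕ}

/-- The period matrix at `x = 1 / s`: the entries are the polynomials `P a b` in `log s` and in the `h_l(1 / s)`. -/
noncomputable def perMat (h : Fin r → PowerSeries ℚ) (P : Fin n → Fin n → MvPolynomial (Option (Fin r)) ℂ) (s : ℝ) :
    Matrix (Fin n) (Fin n) ℂ :=
  Matrix.of fun a b => MvPolynomial.aeval (fun o : Option (Fin r) => o.elim ((Real.log s : ℝ) : ℂ)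
    fun l => ((∑' m : ℕ, ((coeff m (h l) : ℚ) : ℝ) * (1 / s) ^ m : ℝ) : ℂ)) (P a b)

/-- the value at `x = 1 / s` and at the matrix `Z` of a polynomial in the entries of a matrix over `ℂ[x]` -/
noncomputable def relAt (R : MvPolynomial (Fin n × Fin n) (Polynomial ℂ)) (s : ℝ) (Z : Matrix (Fin n) (Fin n) ℂ) : ℂ :=
  MvPolynomial.eval₂ (Polynomial.evalRingHom (1 / (s : ℂ))) (fun v => Z v.1 v.2) R

/-- `g P(x)` satisfies all polynomial relations over `ℂ[x]` which `P(x)` satisfies. -/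
def Preserves (h : Fin r → PowerSeries ℚ) (P : Fin n → Fin n → MvPolynomial (Option (Fin r)) ℂ)
    (g : Matrix (Fin n) (Fin n) ℂ) : Prop :=
  ∀ R : MvPolynomial (Fin n × Fin n) (Polynomial ℂ), (∀ᶠ s : ℝ in Filter.atTop, relAt R s (perMat h P s) = 0) →
    ∀ᶠ s : ℝ in Filter.atTop, relAt R s (g * perMat h P s) = 0

/-- The group of the matrices `g` such that `g` and `g⁻¹` preserve the relations. If `P` is a fundamental matrix of a linear
differential system over `ℂ(x)` this is its differential Galois group. -/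
noncomputable def Gal (h : Fin r → PowerSeries ℚ) (P : Fin n → Fin n → MvPolynomial (Option (Fin r)) ℂ) :
    Subgroup (Matrix.GeneralLinearGroup (Fin n) ℂ) where
  carrier := {g | Preserves h P (g : Matrix (Fin n) (Fin n) ℂ) ∧
    Preserves h P ((g⁻¹ : Matrix.GeneralLinearGroup (Fin n) ℂ) : Matrix (Fin n) (Fin n) ℂ)}
  mul_mem' := fun hg hg' => (Pool.Agent.Y123.GN.Gs h P).mul_mem' hg hg'
  one_mem' := (Pool.Agent.Y123.GN.Gs h P).one_mem'
  inv_mem' := fun hg => (Pool.Agent.Y123.GN.Gs h P).inv_mem' hg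

theorem gal_eq (h : Fin r → PowerSeries ℚ) (P : Fin n → Fin n → MvPolynomial (Option (Fin r)) ℂ) :
    Gal h P = Pool.Agent.Y123.GN.Gs h P := rfl

/-- the nilpotent matrices `N` with `exp (t N) ∈ H` for all `t` -/
def nilpotents (H : Subgroup (Matrix.GeneralLinearGroup (Fin n) ℂ)) : Set (Matrix (Fin n) (Fin n) ℂ) :=
  {N | IsNilpotent N ∧ ∀ t : ℂ, ∃ u ∈ H, (u : Matrix (Fin n) (Fin n) ℂ) = IsNilpotent.exp (t • N)}

/-- the subgroup generated by all unipotent one-parameter groups in `H` -/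
def unipotents (H : Subgroup (Matrix.GeneralLinearGroup (Fin n) ℂ)) : Subgroup (Matrix.GeneralLinearGroup (Fin n) ℂ) :=
  Subgroup.closure {u | ∃ N ∈ nilpotents H, ∃ t : ℂ, (u : Matrix (Fin n) (Fin n) ℂ) = IsNilpotent.exp (t • N)}

/-- `P` is triangular for the weights `wt`, and the period matrix of the graded piece of weight `j` is constant, with entries
in `ω_j K`, if `j ∈ E`. -/
structure Graded (K : Subfield ℂ) (P : Fin n → Fin n → MvPolynomial (Option (Fin r)) ℂ) (wt : Fin n → ℤ) (E : Set ℤ)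
    (ω : ℤ → ℂ) : Prop where
  triangular : ∀ a b, wt b < wt a → P a b = 0
  pieces : ∀ a b, wt b = wt a → wt a ∈ E → ∃ κ ∈ K, P a b = MvPolynomial.C (ω (wt a) * κ)

/-- The position `(a, b)` is above the diagonal and the periods of all pairs of graded pieces which contain it in between are
constant with transcendental quotient. -/
def Separated (wt : Fin n → ℤ) (E : Set ℤ) (ω : ℤ → ℂ) (a b : Fin n) : Prop :=
  wt a < wt b ∧ ∀ a' b', wt a' ≤ wt a → wt b ≤ wt b' → wt a' ∈ E ∧ wt b' ∈ E ∧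
    Transcendental ℚ (ω (wt a') / ω (wt b'))

/-- the elements `g` of `Gal(P)` such that the entries of `g - 1` are zero except at separated positions, for some weights -/
def gradedElements (K : Subfield ℂ) (h : Fin r → PowerSeries ℚ)
    (P : Fin n → Fin n → MvPolynomial (Option (Fin r)) ℂ) : Set (Matrix.GeneralLinearGroup (Fin n) ℂ) :=
  {g | g ∈ Gal h P ∧ ∃ (wt : Fin n → ℤ) (E : Set ℤ) (ω : ℤ → ℂ), Graded K P wt E ω ∧
    ∀ a b, (g : Matrix (Fin n) (Fin n) ℂ) a b ≠ (1 : Matrix (Fin n) (Fin n) ℂ) a b → Separated wt E ω a b}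

/-- the group generated by the commutators of unipotent elements of `Gal(P)` and by the graded elements -/
noncomputable def known (K : Subfield ℂ) (h : Fin r → PowerSeries ℚ)
    (P : Fin n → Fin n → MvPolynomial (Option (Fin r)) ℂ) : Subgroup (Matrix.GeneralLinearGroup (Fin n) ℂ) :=
  ⁅unipotents (Gal h P), unipotents (Gal h P)⁆ ⊔ Subgroup.closure (gradedElements K h P)

/-- a family of mixed Tate motives: all graded pieces are constant, with entries in `(2 π i)^j K` in weight `j` -/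
def MixedTate (K : Subfield ℂ) (P : Fin n → Fin n → MvPolynomial (Option (Fin r)) ℂ) : Prop :=
  ∃ wt : Fin n → ℤ, Graded K P wt Set.univ fun j => (2 * Real.pi * Complex.I) ^ j

end family

section torsors
variable {B : Type} [Fintype B] [DecidableEq B]

/-- `T` is (the set of complex points of) a `K`-subtorsor of `GL_B = Iso (M_dR, M_B)`: it is closed under `x y⁻¹ z`, and
it is defined in `GL_B` by polynomials with coefficients in `K`. -/
def IsSubtorsor (K : Subfield ℂ) (T : Set (Matrix B B ℂ)) : Prop :=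
  (∀ x ∈ T, ∀ y ∈ T, ∀ z ∈ T, x * y⁻¹ * z ∈ T) ∧ ∃ I : Set (MvPolynomial (B × B) K), ∀ x : Matrix B B ℂ, x ∈ T ↔
    IsUnit x ∧ ∀ p ∈ I, MvPolynomial.eval (fun b => x b.1 b.2) (MvPolynomial.map (algebraMap K ℂ) p) = 0

/-- The action of an invertible matrix on the mixed tensors of type `(p, q)`: it acts by `x` on the first `p` indices and
by the contragredient on the others. -/
noncomputable def tens (p q : ℕ) (x : Matrix B B ℂ) :
    Matrix ((Fin p → B) × (Fin q → B)) ((Fin p → B) × (Fin q → B)) ℂ :=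
  Matrix.of fun I J => (∏ s, x (I.1 s) (J.1 s)) * ∏ t, x⁻¹ (J.2 t) (I.2 t)

/-- The Lie algebra of the group `T T⁻¹`: the matrices `w` such that `w x` is a tangent vector of `T` at `x` for all `x` in
`T`. -/
def lie (T : Set (Matrix B B ℂ)) : Set (Matrix B B ℂ) :=
  {w | ∀ P : MvPolynomial (B × B) ℂ, (∀ x ∈ T, MvPolynomial.eval (fun b => x b.1 b.2) P = 0) → ∀ x ∈ T,
    ∑ b : B × B, MvPolynomial.eval (fun b => x b.1 b.2) (MvPolynomial.pderiv b P) * (w * x) b.1 b.2 = 0}

end torsors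

section
variable {k r : ℕ} {n : Fin k → ℕ} {ρ : Fin k → ℕ}

/-- the block matrix `x ⊕ X_1 ⊕ … ⊕ X_k` -/
noncomputable def total (x : Matrix (Fin r) (Fin r) ℂ) (X : ∀ i, Matrix (Fin (n i)) (Fin (n i)) ℂ) :
    Matrix (Fin r ⊕ Σ i, Fin (n i)) (Fin r ⊕ Σ i, Fin (n i)) ℂ :=
  Matrix.fromBlocks x 0 0 (Matrix.blockDiagonal' X)

/-- The conclusion for one tuple; `Z i` is the period matrix of the fibre of the `i`-th family. -/
def Good (K : Subfield ℂ) (C₀ : Matrix (Fin r) (Fin r) ℂ) (h : ∀ i, Fin (ρ i) → PowerSeries ℚ)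
    (P : ∀ i, Fin (n i) → Fin (n i) → MvPolynomial (Option (Fin (ρ i))) ℂ)
    (Z : ∀ i, Matrix (Fin (n i)) (Fin (n i)) ℂ) : Prop :=
  -- 1, 2: all subtorsors; all of `Gal(P i)` for families of mixed Tate motives
  (∀ T, IsSubtorsor K T → total C₀ Z ∈ T → ∀ g : ∀ i, Matrix.GeneralLinearGroup (Fin (n i)) ℂ,
    (∀ i, g i ∈ known K (h i) (P i) ∨ MixedTate K (P i) ∧ g i ∈ Gal (h i) (P i)) →
    ∀ x ∈ T, total 1 (fun i => (g i : Matrix (Fin (n i)) (Fin (n i)) ℂ)) * x ∈ T) ∧
  -- 3: classes in all tensor spaces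
  (IsUnit C₀ → ∀ (p q : ℕ) (a : (Fin p → Fin r ⊕ Σ i, Fin (n i)) × (Fin q → Fin r ⊕ Σ i, Fin (n i)) → K)
    (b : (Fin p → Fin r ⊕ Σ i, Fin (n i)) × (Fin q → Fin r ⊕ Σ i, Fin (n i)) → ℚ),
    Matrix.mulVec (tens p q (total C₀ Z)) (fun J => (a J : ℂ)) = (fun I => (b I : ℂ)) →
    ∀ g : ∀ i, Matrix.GeneralLinearGroup (Fin (n i)) ℂ,
    (∀ i, g i ∈ known K (h i) (P i) ∨ MixedTate K (P i) ∧ g i ∈ Gal (h i) (P i)) →
    Matrix.mulVec (tens p q (total 1 fun i => (g i : Matrix (Fin (n i)) (Fin (n i)) ℂ))) (fun I => (b I : ℂ)) =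
      fun I => (b I : ℂ)) ∧
  -- 4: normality
  ∀ T, IsSubtorsor K T → total C₀ Z ∈ T → ∀ g : ∀ i, Matrix.GeneralLinearGroup (Fin (n i)) ℂ,
    (∀ i, g i ∈ Gal (h i) (P i)) → ∀ w ∈ lie T, total 1 (fun i => (g i : Matrix (Fin (n i)) (Fin (n i)) ℂ)) * w *
      (total 1 fun i => (g i : Matrix (Fin (n i)) (Fin (n i)) ℂ))⁻¹ ∈ lie T

theorem known_le {r n : ℕ} (K : Subfield ℂ) (h : Fin r → PowerSeries ℚ)
    (P : Fin n → Fin n → MvPolynomial (Option (Fin r)) ℂ) (Z : Matrix (Fin n) (Fin n) ℂ) :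
    known K h P ≤ Pool.Agent.Y123.GN.Kn K h P Z := by
  refine sup_le ?_ ((Subgroup.closure_le _).2 ?_)
  · intro g hg
    exact Subgroup.subset_closure (Or.inl (Or.inl hg))
  · rintro g ⟨hg, wt, E, ω, hG, hs⟩
    exact Subgroup.subset_closure (Or.inl (Or.inr ⟨hg, wt, E, ω, ⟨hG.1, hG.2⟩, hs⟩))

theorem good_of {K : Subfield ℂ} {C₀ : Matrix (Fin r) (Fin r) ℂ} {h : ∀ i, Fin (ρ i) → PowerSeries ℚ}
    {P : ∀ i, Fin (n i) → Fin (n i) → MvPolynomial (Option (Fin (ρ i))) ℂ} {t : Fin k → ℕ}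
    (hu : ∀ i, IsUnit (perMat (h i) (P i) (t i : ℝ)))
    (hg : Pool.Agent.Y123.GN.FullM K C₀ h P t) : Good K C₀ h P fun i => perMat (h i) (P i) (t i : ℝ) := by
  have h1 : ∀ T, IsSubtorsor K T → total C₀ (fun i => perMat (h i) (P i) (t i : ℝ)) ∈ T →
      ∀ g : ∀ i, Matrix.GeneralLinearGroup (Fin (n i)) ℂ,
      (∀ i, g i ∈ known K (h i) (P i) ∨ MixedTate K (P i) ∧ g i ∈ Gal (h i) (P i)) →
      ∀ x ∈ T, total 1 (fun i => (g i : Matrix (Fin (n i)) (Fin (n i)) ℂ)) * x ∈ T := by
    intro T hT hcT g hgk x hx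
    refine hg.1 T (Pool.Agent.Y123.ST.subT_iff.1 hT) hcT g (fun i => ?_) x hx
    rcases hgk i with h2 | ⟨⟨wt, hwt⟩, h2⟩
    · exact known_le _ _ _ _ h2
    · exact hg.2.1 i ⟨wt, hwt.1, hwt.2⟩ h2
  refine ⟨h1, ?_, ?_⟩
  · intro hC₀ p q a b hab g hgk
    have hT := Pool.Agent.Y123.GN.class_sub (K := K) (M := Fin r ⊕ (Σ i, Fin (n i))) (p := p) (q := q)
      (fun J => (a J : ℂ)) (fun I => (b I : ℂ)) (fun J => (a J).2) (fun I => SubfieldClass.ratCast_mem K _)
    have hU : IsUnit (total C₀ fun i => perMat (h i) (P i) (t i : ℝ)) := Pool.Agent.Y123.GN.EG_isUnit hC₀ hu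
    have h2 := h1 _ (Pool.Agent.Y123.ST.subT_iff.2 hT) ⟨hU, hab⟩ g hgk _ ⟨hU, hab⟩
    have h3 := h2.2
    rw [Pool.Agent.Y123.GN.tn_mul, ← Matrix.mulVec_mulVec] at h3
    have h4 : Matrix.mulVec (Pool.Agent.Y123.GN.tn p q (total C₀ fun i => perMat (h i) (P i) (t i : ℝ)))
        (fun J => (a J : ℂ)) = fun I => (b I : ℂ) := hab
    rw [h4] at h3
    exact h3
  · intro T hT hcT g hgk w hw
    exact hg.2.2 T (Pool.Agent.Y123.ST.subT_iff.1 hT) hcT g hgk w hw

end

/-- **The theorem.** -/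
theorem result (k D e r : ℕ) (ρ n : Fin k → ℕ) (T : Fin k → Polynomial ℤ)
    (A : ∀ i, Fin (ρ i) → Fin (ρ i) → Polynomial ℤ) (h : ∀ i, Fin (ρ i) → PowerSeries ℚ)
    (hG : ∀ i, GFamily (T i) (A i) (h i)) :
    ∃ c C : ℝ, 0 < c ∧ 0 ≤ C ∧ ∀ P : ∀ i, Fin (n i) → Fin (n i) → MvPolynomial (Option (Fin (ρ i))) ℂ,
      (∀ i a b, (P i a b).totalDegree ≤ e) → ∀ K : Subfield ℂ, FiniteDimensional ℚ K → Module.finrank ℚ K ≤ D →
      ∀ C₀ : Matrix (Fin r) (Fin r) ℂ, ∀ (x : Fin k → ℕ) (N : ℕ), 1 ≤ N →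
      (({t : Fin k → ℕ | (∀ i, x i < t i ∧ t i ≤ x i + N) ∧ (∀ i, IsUnit (perMat (h i) (P i) (t i : ℝ))) ∧
        ¬ Good K C₀ h P fun i => perMat (h i) (P i) (t i : ℝ)}.ncard : ℕ) : ℝ) ≤
        C * (N : ℝ) ^ (k - 1) * ∑ i, (1 + N / ((x i : ℝ) + N) ^ c) := by
  classical
  obtain ⟨c, C, hc, hC, hmain⟩ := Pool.Agent.Y123.GN.mixed_main k D e r ρ n h fun i δ => fam (hG i) δ
  refine ⟨c, C, hc, hC, ?_⟩
  intro P hP K hKf hKD C₀ x N hN
  set S := {t : Fin k → ℕ | (∀ i, x i < t i ∧ t i ≤ x i + N) ∧ (∀ i, IsUnit (perMat (h i) (P i) (t i : ℝ))) ∧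
        ¬ Good K C₀ h P fun i => perMat (h i) (P i) (t i : ℝ)} with hS
  have hfin : S.Finite := by
    refine (Set.finite_Iic (fun i : Fin k => x i + N)).subset ?_
    intro t ht i
    exact (ht.1 i).2
  rw [Set.ncard_eq_toFinset_card S hfin]
  refine hmain P hP K hKf hKD C₀ x N hN _ fun t ht => ?_
  have ht' : t ∈ S := hfin.mem_toFinset.1 ht
  exact ⟨ht'.1, ht'.2.1, fun hgood => ht'.2.2 (good_of ht'.2.1 hgood)⟩

end Pool.Agent.Results.MP_5d33ca_ag.MixedFamilySubtorsors
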