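import Pool.Agent.V1138.OM.Main

/-!
# The smallest subtorsor which contains the period matrix of a 1-motive over an elliptic curve without complex
# multiplication is the motivic torsor

Let `E = ℂ / Λ` be an elliptic curve over the field of algebraic numbers without complex multiplication, let
`P_1, …, P_m` be algebraic points of `E`, independent modulo torsion, with elliptic logarithms `u_i`, and let
`α_1, …, α_l` be multiplicatively independent algebraic numbers with logarithms `ℓ_j`. Consider the 1-motive
`M = [ℤ^m → G] ⊕ [ℤ^l → 𝔾_m]`, where `G` is the extension of `E` by `𝔾_m^m` defined by the points `P_1, …, P_m` of the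
dual curve `E`, where the images of the basis vectors of `ℤ^m` are liftings of `P_1, …, P_m`, and the basis vectors of
`ℤ^l` are sent to the `α_j`. With the liftings for which the integrals of the third kind are the numbers
`log (σ(u_k + u_i) / (σ(u_k) σ(u_i))) - ζ(u_k) u_i`, the matrix of periods of `M` is `periods` below, where
`S k i = log (σ(u_k + u_i) / (σ(u_k) σ(u_i)))`. The other liftings differ by logarithms of algebraic numbers, which can
be taken among the combinations of the `ℓ_j`; so every 1-motive `[ℤ^a → G']` over the algebraic numbers with `G'` an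
extension of a power of `E` by a torus is, up to isogeny, a subquotient of a tensor construction of such an `M`.

The motivic torsor `Ω^mot_M` (the isomorphisms which respect all motivic relations) is the set `torsor` below, of
dimension `4 + 2 m + m (m + 1) / 2 + l`: the matrices of the same shape with arbitrary periods of `E`, arbitrary
columns `V_i` instead of `(u_i, ζ(u_i))`, and arbitrary integrals of the third kind up to the relations
`W - Wᵀ = Vᵀ J V`, which come from the symmetry of the Poincaré biextension.

The theorem: for every subfield `K` of the field of algebraic numbers, the smallest `K`-subtorsor which contains the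
matrix of periods is the whole of `torsor`. So all `K`-rational relations between the periods of `M` which come from
subtorsors, in particular from de Rham-Betti classes (even with algebraic coefficients on the Betti side) or
de Rham-Betti subobjects in tensor constructions, are motivic. There is no exceptional set, and `S` may even be an
arbitrary symmetric matrix of complex numbers.

The proof (`Pool/Agent/V1138/OM`): the Lie algebra `𝔥` of the group of the subtorsor `T` over the algebraic numbers is
spanned by algebraic elements, is normalised by `C t⁻¹`, `t` an algebraic point of `T`, and contains the logarithmic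
derivatives of the matrix of periods `C` for all derivations of `ℂ` over the algebraic numbers. Its projection to the two
by two matrices is everything, since otherwise there is a relation `aᵀ c b = 0` with algebraic vectors `a, b ≠ 0` between
the periods and quasi-periods of `E`. So `𝔥` contains an algebraic element which is conjugate to the weight grading by an
algebraic unipotent matrix. Then `𝔥` is graded, and it contains all of the unipotent part by the inhomogeneous theorems on
linear forms in elliptic logarithms and in logarithms; the relations of weight `-2` are obtained as brackets. These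
theorems of transcendence are those formalised in `Pool/Agent/W245` (elliptic logarithms, integrals of the second kind)
and `Pool/Agent/H297R2` (Baker's theorem); the Lie algebras of subtorsors are from `Pool/Agent/Y123/ST`.
-/

set_option autoImplicit false

open Matrix
open scoped PeriodPair

namespace Pool.Agent.Results.MP_5d33ca_ag.OneMotiveSubtorsors

/-- The Weierstrass zeta function `ζ(z) = ∑ (1/(z-l) + 1/l + z/l²)`, the sum over the lattice (the summand of `l = 0` is
`1/z`, since `1/0 = 0` in Lean). -/
noncomputable def ζ (L : PeriodPair) (z : ℂ) : ℂ :=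
  ∑' l : L.lattice, (1 / (z - l) + 1 / l + z / l ^ 2)

/-- `T` is (the set of complex points of) a `K`-subtorsor of `GL_B = Iso (M_dR, M_B)`: it is closed under `x y⁻¹ z`, and
it is defined in `GL_B` by polynomials with coefficients in `K`. -/
def IsSubtorsor (K : Subfield ℂ) {B : Type} [Fintype B] [DecidableEq B] (T : Set (Matrix B B ℂ)) : Prop :=
  (∀ x ∈ T, ∀ y ∈ T, ∀ z ∈ T, x * y⁻¹ * z ∈ T) ∧ ∃ I : Set (MvPolynomial (B × B) K), ∀ x : Matrix B B ℂ, x ∈ T ↔
    IsUnit x ∧ ∀ p ∈ I, MvPolynomial.eval (fun b => x b.1 b.2) (MvPolynomial.map (algebraMap K ℂ) p) = 0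

/-- `Ω` is the smallest `K`-subtorsor which contains the matrix `c` -/
def IsOmega (K : Subfield ℂ) {B : Type} [Fintype B] [DecidableEq B] (c : Matrix B B ℂ) (Ω : Set (Matrix B B ℂ)) : Prop :=
  IsSubtorsor K Ω ∧ c ∈ Ω ∧ ∀ T : Set (Matrix B B ℂ), IsSubtorsor K T → c ∈ T → Ω ⊆ T

/-- the index set of a basis of the realisations of `M`: for `[ℤ^m → G]` the torus part, `H_1(E)` and `ℤ^m`; for
`[ℤ^l → 𝔾_m]` the element `()` and `ℤ^l` -/
abbrev Idx (m l : ℕ) : Type := (Fin m ⊕ (Fin 2 ⊕ Fin m)) ⊕ (Unit ⊕ Fin l)

/-- the alternating form on the de Rham realisation of `E` -/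
def J : Matrix (Fin 2) (Fin 2) ℂ := !![0, 1; -1, 0]

/-- the block matrix `(det y, Vᵀ J y, W; 0, y, V; 0, 0, 1) ⊕ (det y, t; 0, 1)` -/
def matrix {m l : ℕ} (y : Matrix (Fin 2) (Fin 2) ℂ) (V : Matrix (Fin 2) (Fin m) ℂ) (W : Matrix (Fin m) (Fin m) ℂ)
    (t : Matrix Unit (Fin l) ℂ) : Matrix (Idx m l) (Idx m l) ℂ :=
  fromBlocks (fromBlocks (y.det • 1) (fromCols (Vᵀ * J * y) W) 0 (fromBlocks y V 0 1)) 0 0
    (fromBlocks (y.det • 1) t 0 1)

/-- the motivic torsor -/
def torsor (m l : ℕ) : Set (Matrix (Idx m l) (Idx m l) ℂ) :=
  {x | ∃ y V W t, y.det ≠ 0 ∧ W - Wᵀ = Vᵀ * J * V ∧ x = matrix y V W t}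

/-- The matrix of periods: `y` is the matrix with rows `(ω₁, ω₂)` and `(η₁, η₂)`, `η_i = 2 ζ(ω_i / 2)`, whose determinant
is `± 2 π i` (Legendre's relation); the columns of `V` are `(u_i, ζ(u_i))`; the entries of `Vᵀ J y` are the periods
`η_b u_k - ω_b ζ(u_k)` of the differentials of the third kind; `W_ki = S_ki - ζ(u_k) u_i`; and `t` is the row of the
`ℓ_j`. -/
noncomputable def periods (L : PeriodPair) {m l : ℕ} (u : Fin m → ℂ) (S : Matrix (Fin m) (Fin m) ℂ) (ℓ : Fin l → ℂ) :
    Matrix (Idx m l) (Idx m l) ℂ :=
  matrix !![L.ω₁, L.ω₂; 2 * ζ L (L.ω₁ / 2), 2 * ζ L (L.ω₂ / 2)] (Matrix.of ![u, fun i => ζ L (u i)])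
    (Matrix.of fun k i => S k i - ζ L (u k) * u i) (Matrix.of fun _ => ℓ)

theorem result (L : PeriodPair)
    -- the elliptic curve is defined over the algebraic numbers, without complex multiplication
    (h2 : IsAlgebraic ℚ L.g₂) (h3 : IsAlgebraic ℚ L.g₃)
    (hCM : ∀ α : ℂ, (∀ w ∈ L.lattice, α * w ∈ L.lattice) → ∃ n : ℤ, α = n)
    {m l : ℕ}
    -- algebraic points, independent modulo torsion
    (u : Fin m → ℂ) (hu : ∀ i, u i ∉ L.lattice ∧ IsAlgebraic ℚ (℘[L] (u i)))
    (hind : ∀ n : Fin m → ℤ, ∑ i, (n i : ℂ) * u i ∈ L.lattice → n = 0)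
    -- logarithms of multiplicatively independent algebraic numbers
    (ℓ : Fin l → ℂ) (hℓ : ∀ j, IsAlgebraic ℚ (Complex.exp (ℓ j)))
    (hℓind : ∀ n : Fin l → ℤ, Complex.exp (∑ j, (n j : ℂ) * ℓ j) = 1 → n = 0)
    -- arbitrary complex numbers, for instance logarithms of quotients of sigma functions
    (S : Matrix (Fin m) (Fin m) ℂ) (hS : Sᵀ = S)
    -- the field of coefficients
    (K : Subfield ℂ) (hK : ∀ x ∈ K, IsAlgebraic ℚ x) :
    IsOmega K (periods L u S ℓ) (torsor m l) := by
  have e1 : Pool.Agent.V1138.OM.pm L = !![L.ω₁, L.ω₂; 2 * ζ L (L.ω₁ / 2), 2 * ζ L (L.ω₂ / 2)] := by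
    unfold Pool.Agent.V1138.OM.pm
    rw [Pool.Agent.V1138.OM.eta_half₁, Pool.Agent.V1138.OM.eta_half₂]
    rfl
  have e2 : ∀ i, Pool.Agent.W245.EB.zt L (u i) = ζ L (u i) := fun i =>
    Pool.Agent.W245.EB.zt_of_notMem (hu i).1
  have e3 : periods L u S ℓ = Pool.Agent.V1138.OM.per L u (Matrix.of fun k i => S k i - ζ L (u k) * u i) ℓ := by
    unfold Pool.Agent.V1138.OM.per
    rw [e1, funext e2]
    rfl
  have key := Pool.Agent.V1138.OM.main h2 h3 hCM u (fun i => Or.inr (hu i).2) hind ℓ hℓ hℓind
    (Matrix.of fun k i => S k i - ζ L (u k) * u i) (by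
      rw [funext e2]
      ext k i
      have hs : S i k = S k i := congrFun (congrFun hS k) i
      simp [Pool.Agent.V1138.OM.JJ, Matrix.mul_apply, Fin.sum_univ_two, hs]
      ring) hK
  rw [e3]
  exact key

end Pool.Agent.Results.MP_5d33ca_ag.OneMotiveSubtorsors
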