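import Pool.Agent.V1138.CM.Tors

/-!
# The subtorsors which contain the period matrix of a 1-motive over an elliptic curve with complex multiplication

Let `E = ℂ / Λ` be an elliptic curve over the field of algebraic numbers with complex multiplication by `α`, let
`P_1, …, P_m` be algebraic points of `E`, linearly independent over `End E`, with elliptic logarithms `u_i`, and let
`α_1, …, α_l` be multiplicatively independent algebraic numbers with logarithms `ℓ_j`. Consider the 1-motive
`M = [ℤ^m → G] ⊕ [ℤ^l → 𝔾_m]`, where `G` is the extension of `E` by `𝔾_m^m` defined by the points `P_1, …, P_m` of the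
dual curve `E`, where the images of the basis vectors of `ℤ^m` are liftings of `P_1, …, P_m`, and the basis vectors of
`ℤ^l` are sent to the `α_j`. With the liftings for which the integrals of the third kind are the numbers
`log (σ(u_k + u_i) / (σ(u_k) σ(u_i))) - ζ(u_k) u_i`, the matrix of periods of `M` is `periods` below, where
`S k i = log (σ(u_k + u_i) / (σ(u_k) σ(u_i)))`. The other liftings differ by logarithms of algebraic numbers, which can
be taken among the combinations of the `ℓ_j`.

The motivic torsor of `M` over the algebraic numbers (the isomorphisms which respect all motivic relations) is the set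
`torsor` below, of dimension `2 + 2 m + m (m + 1) / 2 + l`: the matrices of the same shape with `y = y₀ g`, `y₀` the
matrix of periods of `E` and `g` an invertible matrix which commutes with the multiplication by `α` on the homology,
arbitrary columns `V_i` instead of `(u_i, ζ(u_i))`, and arbitrary integrals of the third kind up to the relations
`W - Wᵀ = Vᵀ J V`, which come from the symmetry of the Poincaré biextension. It is a subtorsor over the field of
algebraic numbers (the first part of the theorem).

Let `T` be a `K`-subtorsor which contains the matrix of periods, `K` a subfield of the field of algebraic numbers.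

* For every `K`, also if `K` contains `α`, the torsor `T` contains all matrices of the motivic torsor with `y = y₀`, so
  the unipotent radical of the group of `T` is the motivic one.
* If `α ∉ K`, then `T` contains the whole of `torsor`. So `torsor` is an irreducible component of the smallest
  `K`-subtorsor which contains the periods, and all relations between the periods of `M` which come from
  `K`-subtorsors, in particular from de Rham-Betti classes or subobjects in tensor constructions, are motivic. (Over
  such a `K` the endomorphism `α` of `E` is not defined, and the motivic Galois group has two components.)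

There is no exceptional set, and `S` may even be an arbitrary symmetric matrix of complex numbers.

The proof (`Pool/Agent/V1138/CM`): over the algebraic numbers the group of `T`, intersected with the group which
respects the complex multiplication and conjugated by an algebraic matrix, is a group `H` with diagonal reductive part
which contains a point with the diagonal entries `a ω₁` and `b η'`, `a, b ≠ 0` algebraic, `η'` the quasi-period which is
an eigenvector of the multiplications. Since `ω₁`, `η'`, `ω₁ / η'`, `ω₁ η'` are transcendental, the Lie algebra of `H`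
contains an algebraic element whose weights `p, q` satisfy `p, q, p + q, p - q ≠ 0`; it is conjugate to its diagonal part
by an algebraic unipotent matrix. So the Lie algebra is graded, and contains all of the unipotent part by the
inhomogeneous theorems on linear forms in elliptic logarithms, in integrals of the second kind and in logarithms. For
`α ∉ K`, the projection of the right Lie algebra of `T` to `ℂ 1 + ℂ A`, `A` the integral matrix of the multiplication by
`α`, is defined over `K`, and so it contains an element whose eigenvalues are linearly independent over `ℚ`, since the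
line `ℂ (u₁ 1 - u₀ A)` with `u₀, u₁ ∈ K` and dependent eigenvalues must be that of `1` or of the traceless matrices.
The closure of a one-parameter group with such eigenvalues is a torus of dimension two. The theorems of transcendence
are those formalised in `Pool/Agent/W245` (elliptic logarithms, integrals of the second kind, with complex
multiplication) and `Pool/Agent/H297R2` (Baker's theorem); the Lie algebras of subtorsors are from
`Pool/Agent/Y123/ST`.
-/

set_option autoImplicit false

open Matrix hiding row row_apply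
open scoped PeriodPair

namespace Pool.Agent.Results.MP_5d33ca_ag.OneMotiveSubtorsorsCM

/-- The Weierstrass zeta function `ζ(z) = ∑ (1/(z-l) + 1/l + z/l²)`, the sum over the lattice (the summand of `l = 0` is
`1/z`, since `1/0 = 0` in Lean). -/
noncomputable def ζ (L : PeriodPair) (z : ℂ) : ℂ :=
  ∑' l : L.lattice, (1 / (z - l) + 1 / l + z / l ^ 2)

/-- `T` is (the set of complex points of) a `K`-subtorsor of `GL_B = Iso (M_dR, M_B)`: it is closed under `x y⁻¹ z`, and
it is defined in `GL_B` by polynomials with coefficients in `K`. -/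
def IsSubtorsor (K : Subfield ℂ) {B : Type} [Fintype B] [DecidableEq B] (T : Set (Matrix B B ℂ)) : Prop :=
  (∀ x ∈ T, ∀ y ∈ T, ∀ z ∈ T, x * y⁻¹ * z ∈ T) ∧ ∃ I : Set (MvPolynomial (B × B) K), ∀ x : Matrix B B ℂ, x ∈ T ↔
    IsUnit x ∧ ∀ p ∈ I, MvPolynomial.eval (fun b => x b.1 b.2) (MvPolynomial.map (algebraMap K ℂ) p) = 0

/-- the index set of a basis of the realisations of `M`: for `[ℤ^m → G]` the torus part, `H_1(E)` and `ℤ^m`; for
`[ℤ^l → 𝔾_m]` the element `()` and `ℤ^l` -/
abbrev Idx (m l : ℕ) : Type := (Fin m ⊕ (Fin 2 ⊕ Fin m)) ⊕ (Unit ⊕ Fin l)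

/-- the alternating form on the de Rham realisation of `E` -/
def J : Matrix (Fin 2) (Fin 2) ℂ := !![0, 1; -1, 0]

/-- the block matrix `(det y, Vᵀ J y, W; 0, y, V; 0, 0, 1) ⊕ (det y, t; 0, 1)` -/
def matrix {m l : ℕ} (y : Matrix (Fin 2) (Fin 2) ℂ) (V : Matrix (Fin 2) (Fin m) ℂ) (W : Matrix (Fin m) (Fin m) ℂ)
    (t : Matrix Unit (Fin l) ℂ) : Matrix (Idx m l) (Idx m l) ℂ :=
  fromBlocks (fromBlocks (y.det • 1) (fromCols (Vᵀ * J * y) W) 0 (fromBlocks y V 0 1)) 0 0
    (fromBlocks (y.det • 1) t 0 1)

/-- the matrix of periods of `E`, with the rows `(ω₁, ω₂)` and `(η₁, η₂)`, `η_i = 2 ζ(ω_i / 2)` -/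
noncomputable def y₀ (L : PeriodPair) : Matrix (Fin 2) (Fin 2) ℂ :=
  !![L.ω₁, L.ω₂; 2 * ζ L (L.ω₁ / 2), 2 * ζ L (L.ω₂ / 2)]

/-- the motivic torsor over the algebraic numbers, `A` the matrix of the complex multiplication on the homology -/
def torsor (L : PeriodPair) (A : Matrix (Fin 2) (Fin 2) ℂ) (m l : ℕ) : Set (Matrix (Idx m l) (Idx m l) ℂ) :=
  {x | ∃ g V W t, g.det ≠ 0 ∧ g * A = A * g ∧ W - Wᵀ = Vᵀ * J * V ∧ x = matrix (y₀ L * g) V W t}

/-- The matrix of periods: `y = y₀`, whose determinant is `± 2 π i` (Legendre's relation); the columns of `V` are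
`(u_i, ζ(u_i))`; the entries of `Vᵀ J y` are the periods `η_b u_k - ω_b ζ(u_k)` of the differentials of the third kind;
`W_ki = S_ki - ζ(u_k) u_i`; and `t` is the row of the `ℓ_j`. -/
noncomputable def periods (L : PeriodPair) {m l : ℕ} (u : Fin m → ℂ) (S : Matrix (Fin m) (Fin m) ℂ) (ℓ : Fin l → ℂ) :
    Matrix (Idx m l) (Idx m l) ℂ :=
  matrix (y₀ L) (Matrix.of ![u, fun i => ζ L (u i)]) (Matrix.of fun k i => S k i - ζ L (u k) * u i)
    (Matrix.of fun _ => ℓ)

theorem result (L : PeriodPair)
    -- the elliptic curve is defined over the algebraic numbers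
    (h2 : IsAlgebraic ℚ L.g₂) (h3 : IsAlgebraic ℚ L.g₃)
    -- complex multiplication by `α`
    (α : ℂ) (hα : α.im ≠ 0) (A : Matrix (Fin 2) (Fin 2) ℤ)
    (hA₁ : α * L.ω₁ = A 0 0 * L.ω₁ + A 1 0 * L.ω₂) (hA₂ : α * L.ω₂ = A 0 1 * L.ω₁ + A 1 1 * L.ω₂)
    {m l : ℕ}
    -- algebraic points, independent over the ring of endomorphisms
    (u : Fin m → ℂ) (hu : ∀ i, u i ∉ L.lattice ∧ IsAlgebraic ℚ (℘[L] (u i)))
    (hind : ∀ β : Fin m → ℂ, (∀ i, ∀ w ∈ L.lattice, β i * w ∈ L.lattice) → ∑ i, β i * u i ∈ L.lattice → β = 0)
    -- logarithms of multiplicatively independent algebraic numbers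
    (ℓ : Fin l → ℂ) (hℓ : ∀ j, IsAlgebraic ℚ (Complex.exp (ℓ j)))
    (hℓind : ∀ n : Fin l → ℤ, Complex.exp (∑ j, (n j : ℂ) * ℓ j) = 1 → n = 0)
    -- arbitrary complex numbers, for instance logarithms of quotients of sigma functions
    (S : Matrix (Fin m) (Fin m) ℂ) (hS : Sᵀ = S) :
    -- the motivic torsor is a subtorsor over the algebraic numbers which contains the periods
    (IsSubtorsor (algebraicClosure ℚ ℂ).toSubfield (torsor L (A.map (Int.cast : ℤ → ℂ)) m l) ∧
      periods L u S ℓ ∈ torsor L (A.map (Int.cast : ℤ → ℂ)) m l) ∧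
    -- the field of coefficients, and a subtorsor which contains the periods
    ∀ K : Subfield ℂ, (∀ x ∈ K, IsAlgebraic ℚ x) → ∀ T : Set (Matrix (Idx m l) (Idx m l) ℂ), IsSubtorsor K T →
      periods L u S ℓ ∈ T →
        (∀ V W t, W - Wᵀ = Vᵀ * J * V → matrix (y₀ L) V W t ∈ T) ∧
        (α ∉ K → torsor L (A.map (Int.cast : ℤ → ℂ)) m l ⊆ T) := by
  have e1 : Pool.Agent.V1138.OM.pm L = y₀ L := by
    unfold Pool.Agent.V1138.OM.pm
    rw [Pool.Agent.V1138.OM.eta_half₁, Pool.Agent.V1138.OM.eta_half₂]
    rfl
  have e2 : ∀ i, Pool.Agent.W245.EB.zt L (u i) = ζ L (u i) := fun i =>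
    Pool.Agent.W245.EB.zt_of_notMem (hu i).1
  have e3 : periods L u S ℓ = Pool.Agent.V1138.OM.per L u (Matrix.of fun k i => S k i - ζ L (u k) * u i) ℓ := by
    unfold Pool.Agent.V1138.OM.per
    rw [e1, funext e2]
    rfl
  have hW : (Matrix.of fun k i => S k i - ζ L (u k) * u i) - (Matrix.of fun k i => S k i - ζ L (u k) * u i)ᵀ =
      (Matrix.of ![u, fun i => Pool.Agent.W245.EB.zt L (u i)])ᵀ * Pool.Agent.V1138.OM.JJ *
        Matrix.of ![u, fun i => Pool.Agent.W245.EB.zt L (u i)] := by
    rw [funext e2]
    ext k i
    have hs : S i k = S k i := congrFun (congrFun hS k) i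
    simp [Pool.Agent.V1138.OM.JJ, Matrix.mul_apply, Fin.sum_univ_two, hs]
    ring
  obtain ⟨ρ, r, τ, τ', hd⟩ := Pool.Agent.V1138.CM.exists_CMd h2 h3 hα hA₁ hA₂
  have hper := Pool.Agent.V1138.CM.per_GG (m := m) (l := l) h2 h3 hd u (fun i => Or.inr (hu i).2) hind ℓ hℓ hℓind _ hW
  have htor : torsor L (A.map (Int.cast : ℤ → ℂ)) m l = Pool.Agent.V1138.CM.GA m l (A.map (Int.cast : ℤ → ℂ))
      (Pool.Agent.V1138.CM.PP r * diagonal ![α, ρ] * Pool.Agent.V1138.CM.PP (-r)) :=
    Pool.Agent.V1138.CM.GA_eq hd e1
  refine ⟨⟨?_, ?_⟩, fun K hK T hT hTp => ⟨fun V W t hW' => ?_, fun hαK => ?_⟩⟩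
  · rw [htor]
    exact Pool.Agent.V1138.CM.GA_alg hd
  · rw [htor, e3]
    exact ⟨hper, hd.rel⟩
  · rw [e3] at hTp
    have h := Pool.Agent.V1138.CM.mainC h2 h3 hd u (fun i => Or.inr (hu i).2) hind ℓ hℓ hℓind _ hW hK hT hTp
      (g := 1) (by simp) (by simp) (Or.inr rfl) (V' := V) (W' := W) (t' := t) hW'
    rw [Matrix.mul_one, e1] at h
    exact h
  · rw [e3] at hTp
    rintro _ ⟨g, V, W, t, hg, hgA, hW', rfl⟩
    have h := Pool.Agent.V1138.CM.mainC h2 h3 hd u (fun i => Or.inr (hu i).2) hind ℓ hℓ hℓind _ hW hK hT hTp
      hg hgA (Or.inl hαK) (V' := V) (W' := W) (t' := t) hW'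
    rw [e1] at h
    exact h

end Pool.Agent.Results.MP_5d33ca_ag.OneMotiveSubtorsorsCM
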