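import Mathlib
import Pool.Agent.Y918.EL.Main

/-!
# Periods of random 1-motives attached to points of elliptic curves with complex multiplication

Let `E_j = ℂ/Ω_j` (`j = 1, …, n`) be elliptic curves over the algebraic numbers (the invariants `g₂, g₃`
of `Ω_j` are algebraic) with complex multiplication by `α_j ∉ ℝ`, `α_j Ω_j ⊂ Ω_j`; several of them may
be equal.  Let `u_{j,1}, …, u_{j,k}` be elliptic logarithms of points of `E_j(ℚ̄)` which are linearly
independent over `End(E_j) ⊗ ℚ`, and let `b_j` be an elliptic logarithm of a point of `E_j(ℚ̄)`, for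
instance `0`.  For a finite set `A` of integers we consider the random points

  `p_j = b_j + ∑_i (m_{j,i} + m'_{j,i} α_j) u_{j,i}`,  all `m_{j,i}, m'_{j,i} ∈ A`.

The numbers `p_j`, `ζ(p_j)` (elliptic integrals of the first and second kind) are, with the periods and
quasi-periods of `Ω_j`, the periods of the 1-motive `[ℤ → E_j]` over `ℚ̄` given by the point `p_j`, that
is of the relative cohomology `H¹(E_j, {0, p_j})`.  The motivic Galois group of the direct sum `M` of
these 1-motives is an extension of the motivic Galois group of `⨁ H¹(E_j)` by a unipotent group, whose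
dimension is `2 n` if there are no linear relations between the points.  The conjecture
`trdeg k(periods of M) = dim G_mot(M)` implies in this case that the `2 n` numbers `p_j`, `ζ(p_j)` are
algebraically independent over the field generated by the periods and quasi-periods of the curves.

**Theorem.** For all `n`, `D`, `N` there are `k₀`, `C` and `δ > 0` such that for all `k ≥ k₀`, all these
data, all `A` and all spaces `W` over the algebraic numbers of dimension at most `N` (for instance the
space generated by the monomials of bounded degree in the periods and quasi-periods of the `Ω_j`): for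
all but `C |A|^(2nk - δk)` of the `|A|^(2nk)` parameters the points `p_j` are not in `Ω_j`, the numbers
`℘(p_j)` are algebraic, and the `2 n` numbers `p_j`, `ζ(p_j)` satisfy no nonzero polynomial relation of
total degree at most `D` with coefficients in `W`.

**The proof.**  For a suitable algebraic number `a_j` the function `ζ(z) - a_j z` is mapped by the complex
multiplication to its multiple by the conjugate of `α_j`, up to an elliptic function.  Hence, modulo
algebraic numbers and up to translations, `p_j` and `ζ(p_j) - a_j p_j` are the sums of the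
`(m + m' α_j) u_{j,i}` and of the `(m + m' ᾱ_j) (ζ(u_{j,i}) - a_j u_{j,i})`.  By the theorem on linear
forms in elliptic integrals of the first and second kind with algebraic coefficients each of the two
families `u_{j,i}` and `ζ(u_{j,i}) - a_j u_{j,i}` is linearly independent over the algebraic numbers, and
all projections of random parameter vectors have large rank.  A cube theorem and an iterated
Cauchy–Schwarz inequality bound the number of the parameters for which there is a relation
(`Pool/Agent/Y918/EL`).
-/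

set_option autoImplicit false

open scoped PeriodPair

noncomputable section

namespace Pool.Agent.Results.MP_5d33ca_ag.RandomCMPoints

/-- The field of algebraic numbers. -/
abbrev Qbar : IntermediateField ℚ ℂ := algebraicClosure ℚ ℂ

/-- The Weierstrass zeta function
`ζ(z) = 1/z + ∑_{l ≠ 0} (1/(z - l) + 1/l + z/l²)` (in Lean `1/0 = 0`, so that the term with `l = 0`
of the sum below is `1/z`). -/
def zetaW (L : PeriodPair) (z : ℂ) : ℂ := ∑' l : L.lattice, (1 / (z - l) + 1 / l + z / l ^ 2)

/-- `β` belongs to the field `k = End(ℂ/Ω) ⊗ ℚ`: some multiple `m β`, `m ≥ 1`, maps the lattice `Ω`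
to itself. -/
def IsMult (L : PeriodPair) (β : ℂ) : Prop :=
  ∃ m : ℕ, 0 < m ∧ ∀ ω ∈ L.lattice, (m : ℂ) * β * ω ∈ L.lattice

/-- The numbers `w_j` are linearly independent over `k`. -/
def IndepMult (L : PeriodPair) {R : ℕ} (w : Fin R → ℂ) : Prop :=
  ∀ β : Fin R → ℂ, (∀ j, IsMult L (β j)) → ∑ j, β j * w j = 0 → ∀ j, β j = 0

/-- Some nonzero polynomial of total degree at most `D` with coefficients in `W` vanishes at `x`. -/
def Related (W : Submodule Qbar ℂ) (D : ℕ) {σ : Type} (x : σ → ℂ) : Prop :=
  ∃ Q : MvPolynomial σ ℂ, Q ≠ 0 ∧ Q.totalDegree ≤ D ∧ (∀ e, Q.coeff e ∈ W) ∧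
    MvPolynomial.eval x Q = 0

/-- The points `p_j = b_j + ∑_i (m_{j,i} + m'_{j,i} α_j) u_{j,i}`, where `m_{j,i}` is `m j (i, 0)` and
`m'_{j,i}` is `m j (i, 1)`. -/
def point {n k : ℕ} (α b : Fin n → ℂ) (u : Fin n → Fin k → ℂ) (m : Fin n → Fin k × Fin 2 → ℤ)
    (j : Fin n) : ℂ := b j + ∑ i, ((m j (i, 0) : ℂ) + m j (i, 1) * α j) * u j i

open Classical in
/-- **Main result.** -/
theorem result (n D N : ℕ) : ∃ (k₀ C : ℕ) (δ : ℝ), 0 < δ ∧ ∀ k ≥ k₀,
    -- elliptic curves with complex multiplication
    ∀ L : Fin n → PeriodPair, (∀ j, IsAlgebraic ℚ (L j).g₂) → (∀ j, IsAlgebraic ℚ (L j).g₃) →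
    ∀ α : Fin n → ℂ, (∀ j, (α j).im ≠ 0) → (∀ j, ∀ ω ∈ (L j).lattice, α j * ω ∈ (L j).lattice) →
    -- elliptic logarithms of algebraic points
    ∀ u : Fin n → Fin k → ℂ, (∀ j i, u j i ∈ (L j).lattice ∨ IsAlgebraic ℚ (℘[L j] (u j i))) →
    (∀ j, IndepMult (L j) (u j)) →
    ∀ b : Fin n → ℂ, (∀ j, b j ∈ (L j).lattice ∨ IsAlgebraic ℚ (℘[L j] (b j))) →
    ∀ A : Finset ℤ, A.Nonempty →
    ∀ W : Submodule Qbar ℂ, Module.Finite Qbar W → Module.finrank Qbar W ≤ N →
    (((Fintype.piFinset fun _ : Fin n => Fintype.piFinset fun _ : Fin k × Fin 2 => A).filter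
      (fun m => ¬ ((∀ j, point α b u m j ∉ (L j).lattice ∧
          IsAlgebraic ℚ (℘[L j] (point α b u m j))) ∧
        ¬ Related W D (Sum.elim (point α b u m)
          (fun j => zetaW (L j) (point α b u m j)))))).card : ℝ) ≤
      C * (A.card : ℝ) ^ ((2 * n * k : ℝ) - δ * k) := by
  obtain ⟨k₀, C, δ, hδ, h⟩ := Pool.Agent.Y918.EL.cmpoints n D N
  refine ⟨k₀, C, δ, hδ, fun k hk L h2 h3 α hα hm u hu hind b hb A hA W hW hWN => ?_⟩
  let d : Fin n → Pool.Agent.Y918.EL.CM := fun j =>
    { L := L j
      g2 := h2 j
      g3 := h3 j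
      α := α j
      hα := hα j
      hm := hm j }
  have h1 := h k hk d u (fun j => ⟨hu j, fun β hβ h0 => funext fun i => hind j β hβ h0 i⟩)
    b hb A hA W hW hWN
  refine le_trans (Nat.cast_le.2 (Finset.card_le_card ?_)) h1
  intro m hmm
  rw [Finset.mem_filter] at hmm ⊢
  refine ⟨hmm.1, fun hG => hmm.2 ?_⟩
  obtain ⟨hn, hr⟩ := hG
  refine ⟨fun j => ⟨(hn j).1, (hn j).2.resolve_left (hn j).1⟩, ?_⟩
  rintro ⟨Q, hQ, hQd, hQW, hQ0⟩
  apply hQ
  apply hr Q hQd hQW
  rw [← hQ0]
  congr 2
  funext i
  rcases i with i | i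
  · rfl
  · have h5 : Pool.Agent.W245.EB.zt (L i) (point α b u m i) = zetaW (L i) (point α b u m i) :=
      Pool.Agent.W245.EB.zt_of_notMem (hn i).1
    change Pool.Agent.W245.EB.zt (L i) (point α b u m i) = zetaW (L i) (point α b u m i)
    rw [h5]

end Pool.Agent.Results.MP_5d33ca_ag.RandomCMPoints
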